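import Pool.Agent.H221.TW.StmG

/-!
Project TW: consequences of a label and of convexity for a chain of boundary points.
-/

set_option autoImplicit false

namespace Pool.Agent.H777.TW

open Pool.Agent.H332.HT (V2 V3 det)
open Pool.Agent.H221.TW

/-- the part of `ChainG` which is used here -/
structure Pts (Q : Set V2) (th : ℕ → ℝ) (p : ℕ → V2) : Prop where
  cvx : Convex ℝ Q
  cpt : IsCompact Q
  zer : (0 : V2) ∈ interior Q
  mono : StrictMono th
  per : ∀ i, th (i + 10) = th i + 2 * Real.pi
  pper : ∀ i, p (i + 10) = p i
  pol : ∀ i, ∃ r : ℝ, 0 < r ∧ p i = (r * Real.cos (th i), r * Real.sin (th i))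
  fr : ∀ i, p i ∈ frontier Q

variable {Q : Set V2} {th : ℕ → ℝ} {p : ℕ → V2}

lemma Pts.of (hQ : Convex ℝ Q) (hc : IsCompact Q) (h0 : (0 : V2) ∈ interior Q)
    (C : ChainG Q th p) : Pts Q th p :=
  ⟨hQ, hc, h0, C.mono, C.per, C.pper, C.pol, C.fr⟩

lemma Pts.of' (hQ : Convex ℝ Q) (hc : IsCompact Q) (h0 : (0 : V2) ∈ interior Q)
    (C : Chain Q th p) : Pts Q th p :=
  ⟨hQ, hc, h0, C.mono, C.per, C.pper, C.pol, C.fr⟩

/-- Plücker -/
lemma plu (a b c d : V2) : det a b * det c d - det a c * det b d + det a d * det b c = 0 := by
  unfold det; ring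

lemma anti (a b : V2) : det a b = - det b a := by unfold det; ring

lemma self (a : V2) : det a a = 0 := by unfold det; ring

lemma Pts.pos (H : Pts Q th p) {i j : ℕ} (h1 : i < j) (h2 : th j < th i + Real.pi) :
    0 < det (p i) (p j) := by
  obtain ⟨r, hr, er⟩ := H.pol i
  obtain ⟨s, hs, es⟩ := H.pol j
  have e : det (p i) (p j) = r * s * Real.sin (th j - th i) := by
    rw [er, es, Real.sin_sub]; unfold det; simp only; ring
  rw [e]
  exact mul_pos (mul_pos hr hs) (Real.sin_pos_of_pos_of_lt_pi (sub_pos.2 (H.mono h1)) (by linarith))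

lemma Pts.lt2 (H : Pts Q th p) {i j : ℕ} (h : j < i + 10) : th j < th i + 2 * Real.pi := by
  rw [← H.per]; exact H.mono h

lemma Pts.nonpos (H : Pts Q th p) {i j : ℕ} (h1 : th i + Real.pi ≤ th j) (h2 : j < i + 10) :
    det (p i) (p j) ≤ 0 := by
  obtain ⟨r, hr, er⟩ := H.pol i
  obtain ⟨s, hs, es⟩ := H.pol j
  have e : det (p i) (p j) = -(r * s * Real.sin (th j - th i - Real.pi)) := by
    rw [er, es, Real.sin_sub_pi, Real.sin_sub]; unfold det; simp only; ring
  rw [e]
  have h3 := H.lt2 h2
  have : 0 ≤ Real.sin (th j - th i - Real.pi) :=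
    Real.sin_nonneg_of_nonneg_of_le_pi (by linarith) (by linarith)
  have := mul_nonneg (mul_nonneg hr.le hs.le) this
  linarith

lemma Pts.neg (H : Pts Q th p) {i j : ℕ} (h1 : th i + Real.pi < th j) (h2 : j < i + 10) :
    det (p i) (p j) < 0 := by
  obtain ⟨r, hr, er⟩ := H.pol i
  obtain ⟨s, hs, es⟩ := H.pol j
  have e : det (p i) (p j) = -(r * s * Real.sin (th j - th i - Real.pi)) := by
    rw [er, es, Real.sin_sub_pi, Real.sin_sub]; unfold det; simp only; ring
  rw [e]
  have h3 := H.lt2 h2
  have : 0 < Real.sin (th j - th i - Real.pi) :=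
    Real.sin_pos_of_pos_of_lt_pi (by linarith) (by linarith)
  have := mul_pos (mul_pos hr hs) this
  linarith

/-- the triangle `p i, p j, p k` is positively oriented: span less than a half-turn -/
lemma Pts.tri (H : Pts Q th p) {i j k : ℕ} (h1 : i < j) (h2 : j < k) (h3 : th k < th i + Real.pi) :
    det (p i) (p k) ≤ det (p i) (p j) + det (p j) (p k) := by
  by_contra hcon
  push Not at hcon
  have hij := H.pos h1 ((H.mono h2).trans h3)
  have hik := H.pos (h1.trans h2) h3
  have hjk : 0 < det (p j) (p k) := H.pos h2 (by linarith [H.mono h1])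
  have hmem : ∀ n, p n ∈ Q := fun n => H.cpt.isClosed.frontier_subset (H.fr n)
  set s := (det (p i) (p j) + det (p j) (p k)) / det (p i) (p k) with hs
  have hs0 : 0 < s := div_pos (by linarith) hik
  have hs1 : s < 1 := (div_lt_one hik).2 hcon
  have hsum : 0 < det (p i) (p j) + det (p j) (p k) := by linarith
  have hx : (det (p j) (p k) / (det (p i) (p j) + det (p j) (p k))) • p i +
      (det (p i) (p j) / (det (p i) (p j) + det (p j) (p k))) • p k ∈ Q := by
    refine H.cvx (hmem i) (hmem k) (by positivity) (by positivity) ?_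
    field_simp; ring
  have h4 := H.cvx.combo_interior_self_mem_interior H.zer hx (a := 1 - s) (b := s)
    (by linarith) hs0.le (by ring)
  have e : (1 - s) • (0 : V2) + s • ((det (p j) (p k) / (det (p i) (p j) + det (p j) (p k))) • p i +
      (det (p i) (p j) / (det (p i) (p j) + det (p j) (p k))) • p k) = p j := by
    rw [smul_zero, zero_add, smul_add, smul_smul, smul_smul]
    have e1 : s * (det (p j) (p k) / (det (p i) (p j) + det (p j) (p k))) =
        det (p j) (p k) / det (p i) (p k) := by
      rw [hs]; field_simp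
    have e2 : s * (det (p i) (p j) / (det (p i) (p j) + det (p j) (p k))) =
        det (p i) (p j) / det (p i) (p k) := by
      rw [hs]; field_simp
    rw [e1, e2]
    ext
    · simp only [Prod.fst_add, Prod.smul_fst, smul_eq_mul]
      field_simp
      unfold det; ring
    · simp only [Prod.snd_add, Prod.smul_snd, smul_eq_mul]
      field_simp
      unfold det; ring
  rw [e] at h4
  exact (H.fr j).2 h4

/-- every triangle of three points of the chain is positively oriented -/
lemma Pts.tri' (H : Pts Q th p) {i j k : ℕ} (h1 : i < j) (h2 : j < k) (h3 : k < i + 10) :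
    0 ≤ det (p i) (p j) + det (p j) (p k) - det (p i) (p k) := by
  rcases lt_or_ge (th k) (th i + Real.pi) with h | h
  · linarith [H.tri h1 h2 h]
  have hk := H.nonpos h h3
  have h5 := H.lt2 h3
  rcases lt_or_ge (th j) (th i + Real.pi) with h6 | h6
  · have hij := H.pos h1 h6
    rcases lt_trichotomy (th k) (th j + Real.pi) with h7 | h7 | h7
    · linarith [H.pos h2 h7]
    · have e0 : 0 ≤ det (p j) (p k) := by
        obtain ⟨r, hr, er⟩ := H.pol j
        obtain ⟨s, hs, es⟩ := H.pol k
        have e : det (p j) (p k) = 0 := by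
          rw [er, es, h7, Real.cos_add_pi, Real.sin_add_pi]; unfold det; simp only; ring
        exact e.ge
      linarith
    · -- span j → k is more than a half-turn: the triangle (k, i+10, j+10)
      have h8 := H.tri (i := k) (j := i + 10) (k := j + 10) h3 (by omega)
        (by rw [H.per]; linarith)
      rw [H.pper, H.pper] at h8
      have e1 := anti (p k) (p j)
      have e2 := anti (p k) (p i)
      linarith
  · rcases eq_or_lt_of_le h6 with h9 | h9
    · have e : det (p i) (p j) = 0 := by
        obtain ⟨r, hr, er⟩ := H.pol i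
        obtain ⟨s, hs, es⟩ := H.pol j
        rw [er, es, ← h9, Real.cos_add_pi, Real.sin_add_pi]; unfold det; simp only; ring
      have e1 := H.pos h2 (by linarith)
      linarith
    -- th j > th i + π: the triangle (j, k, i + 10)
    have h8 := H.tri (i := j) (j := k) (k := i + 10) h2 h3
      (by rw [H.per]; linarith)
    rw [H.pper] at h8
    have e1 := anti (p j) (p i)
    have e2 := anti (p k) (p i)
    linarith

/-- P3, right version -/
theorem Pts.right (H : Pts Q th p) {i j k a j' k' : ℕ} (hij : i < j) (hjk : j < k)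
    (hlab : det (p i) (p k) < det (p i) (p j)) (ha : a ≤ i) (hj : j ≤ j') (hk : k ≤ k')
    (hjk' : j' < k') (hka : k' < a + 10) (hth : th j' < th a + Real.pi) :
    det (p a) (p k') < det (p a) (p j') := by
  have hm := H.mono.monotone
  have hj1 : 0 < det (p a) (p j') := H.pos (by omega) hth
  rcases lt_or_ge (th k') (th a + Real.pi) with hka' | hka'
  swap
  · exact (H.nonpos hka' hka).trans_lt hj1
  have tai := hm ha
  have tjj := hm hj
  have tkk := hm hk
  have tij := H.mono hij
  have tjk := H.mono hjk
  have pij : 0 < det (p i) (p j) := H.pos hij (by linarith)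
  have pjk : 0 < det (p j) (p k) := H.pos hjk (by linarith)
  have paj : 0 < det (p a) (p j) := H.pos (by omega) (by linarith)
  have pak : 0 < det (p a) (p k) := H.pos (by omega) (by linarith)
  have pak' : 0 < det (p a) (p k') := H.pos (by omega) (by linarith)
  -- step 1
  have s1 : det (p a) (p k) < det (p a) (p j) := by
    rcases eq_or_lt_of_le ha with rfl | ha'
    · exact hlab
    have pai : 0 < det (p a) (p i) := H.pos ha' (by linarith)
    have e1 := plu (p a) (p i) (p j) (p k)
    by_contra hc
    push Not at hc
    have h1 : det (p i) (p j) * (det (p a) (p k) - det (p a) (p j)) =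
        det (p a) (p j) * (det (p i) (p k) - det (p i) (p j)) - det (p a) (p i) * det (p j) (p k) := by
      linear_combination (1 : ℝ) * e1
    have h2 : 0 ≤ det (p i) (p j) * (det (p a) (p k) - det (p a) (p j)) :=
      mul_nonneg pij.le (by linarith)
    have h3 : det (p a) (p j) * (det (p i) (p k) - det (p i) (p j)) < 0 :=
      mul_neg_of_pos_of_neg paj (by linarith)
    have h4 : 0 < det (p a) (p i) * det (p j) (p k) := mul_pos pai pjk
    linarith
  -- step 2
  have s2 : det (p a) (p k') < det (p a) (p j) := by
    rcases eq_or_lt_of_le hk with rfl | hk'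
    · exact s1
    by_contra hc
    push Not at hc
    have pkk : 0 < det (p k) (p k') := H.pos hk' (by linarith)
    have pjk' : 0 < det (p j) (p k') := H.pos (by omega) (by linarith)
    have t := H.tri (i := j) (j := k) (k := k') hjk hk' (by linarith)
    have e1 := plu (p a) (p j) (p k) (p k')
    have h1 : det (p a) (p j) * det (p j) (p k') ≤
        det (p a) (p j) * (det (p j) (p k) + det (p k) (p k')) := mul_le_mul_of_nonneg_left t paj.le
    have h2 : det (p a) (p j) * det (p j) (p k) ≤ det (p a) (p k') * det (p j) (p k) :=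
      mul_le_mul_of_nonneg_right hc pjk.le
    have h3 : det (p a) (p j) * det (p j) (p k') ≤ det (p a) (p k) * det (p j) (p k') := by
      nlinarith
    have h4 := le_of_mul_le_mul_right h3 pjk'
    linarith
  -- step 3
  rcases eq_or_lt_of_le hj with rfl | hj'
  · exact s2
  have pjj : 0 < det (p j) (p j') := H.pos hj' (by linarith)
  have pj'k' : 0 < det (p j') (p k') := H.pos hjk' (by linarith [hm ha, H.mono (show a < j' by omega)])
  have pjk' : 0 < det (p j) (p k') := H.pos (by omega) (by linarith)
  have t := H.tri (i := j) (j := j') (k := k') hj' hjk' (by linarith)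
  have e1 := plu (p a) (p j) (p j') (p k')
  by_contra hc
  push Not at hc
  have h1 : det (p a) (p k') * det (p j) (p k') ≤
      det (p a) (p k') * (det (p j) (p j') + det (p j') (p k')) := mul_le_mul_of_nonneg_left t pak'.le
  have h2 : det (p a) (p k') * det (p j') (p k') < det (p a) (p j) * det (p j') (p k') :=
    mul_lt_mul_of_pos_right s2 pj'k'
  have h3 : det (p a) (p j') * det (p j) (p k') ≤ det (p a) (p k') * det (p j) (p k') :=
    mul_le_mul_of_nonneg_right hc pjk'.le
  nlinarith

/-- P3, left version -/
theorem Pts.left (H : Pts Q th p) {i j k a i' j' : ℕ} (hij : i < j) (hjk : j < k)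
    (hlab : det (p i) (p k) < det (p j) (p k)) (ha : k ≤ a) (hi : i' ≤ i) (hj : j' ≤ j)
    (hij' : i' < j') (hka : a < i' + 10) (hth : th a < th j' + Real.pi) :
    det (p i') (p a) < det (p j') (p a) := by
  have hm := H.mono.monotone
  have hj1 : 0 < det (p j') (p a) := H.pos (by omega) hth
  rcases lt_or_ge (th a) (th i' + Real.pi) with hka' | hka'
  swap
  · exact (H.nonpos hka' hka).trans_lt hj1
  have tka := hm ha
  have tii := hm hi
  have tjj := hm hj
  have tij := H.mono hij
  have tjk := H.mono hjk
  have pij : 0 < det (p i) (p j) := H.pos hij (by linarith)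
  have pjk : 0 < det (p j) (p k) := H.pos hjk (by linarith)
  have pja : 0 < det (p j) (p a) := H.pos (by omega) (by linarith)
  have pia : 0 < det (p i) (p a) := H.pos (by omega) (by linarith)
  have pi'a : 0 < det (p i') (p a) := H.pos (by omega) (by linarith)
  have s1 : det (p i) (p a) < det (p j) (p a) := by
    rcases eq_or_lt_of_le ha with rfl | ha'
    · exact hlab
    have pka : 0 < det (p k) (p a) := H.pos ha' (by linarith)
    have e1 := plu (p i) (p j) (p k) (p a)
    by_contra hc
    push Not at hc
    have h1 : det (p j) (p k) * (det (p i) (p a) - det (p j) (p a)) =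
        det (p j) (p a) * (det (p i) (p k) - det (p j) (p k)) - det (p k) (p a) * det (p i) (p j) := by
      linear_combination (1 : ℝ) * e1
    have h2 : 0 ≤ det (p j) (p k) * (det (p i) (p a) - det (p j) (p a)) :=
      mul_nonneg pjk.le (by linarith)
    have h3 : det (p j) (p a) * (det (p i) (p k) - det (p j) (p k)) < 0 :=
      mul_neg_of_pos_of_neg pja (by linarith)
    have h4 : 0 < det (p k) (p a) * det (p i) (p j) := mul_pos pka pij
    linarith
  have s2 : det (p i') (p a) < det (p j) (p a) := by
    rcases eq_or_lt_of_le hi with rfl | hi'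
    · exact s1
    by_contra hc
    push Not at hc
    have pii : 0 < det (p i') (p i) := H.pos hi' (by linarith)
    have pi'j : 0 < det (p i') (p j) := H.pos (by omega) (by linarith)
    have t := H.tri (i := i') (j := i) (k := j) hi' hij (by linarith)
    have e1 := plu (p i') (p i) (p j) (p a)
    have h1 : det (p j) (p a) * det (p i') (p j) ≤
        det (p j) (p a) * (det (p i') (p i) + det (p i) (p j)) := mul_le_mul_of_nonneg_left t pja.le
    have h2 : det (p j) (p a) * det (p i) (p j) ≤ det (p i') (p a) * det (p i) (p j) :=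
      mul_le_mul_of_nonneg_right hc pij.le
    have h3 : det (p j) (p a) * det (p i') (p j) ≤ det (p i) (p a) * det (p i') (p j) := by
      nlinarith
    have h4 := le_of_mul_le_mul_right h3 pi'j
    linarith
  rcases eq_or_lt_of_le hj with rfl | hj'
  · exact s2
  have pjj : 0 < det (p j') (p j) := H.pos hj' (by linarith [H.mono (show i' < j' from hij')])
  have pi'j' : 0 < det (p i') (p j') := H.pos hij' (by linarith [H.mono (show j' < a by omega)])
  have pi'j : 0 < det (p i') (p j) := H.pos (by omega) (by linarith)
  have t := H.tri (i := i') (j := j') (k := j) hij' hj' (by linarith)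
  have e1 := plu (p i') (p j') (p j) (p a)
  by_contra hc
  push Not at hc
  have h1 : det (p i') (p a) * det (p i') (p j) ≤
      det (p i') (p a) * (det (p i') (p j') + det (p j') (p j)) := mul_le_mul_of_nonneg_left t pi'a.le
  have h2 : det (p i') (p a) * det (p i') (p j') < det (p j) (p a) * det (p i') (p j') :=
    mul_lt_mul_of_pos_right s2 pi'j'
  have h3 : det (p j') (p a) * det (p i') (p j) ≤ det (p i') (p a) * det (p i') (p j) :=
    mul_le_mul_of_nonneg_right hc pi'j.le
  nlinarith

end Pool.Agent.H777.TW
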